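import Pool.Agent.H705.TR.Stm

/-! # Project TR (helper705), package IND (helper166) -/

set_option autoImplicit false

namespace Pool.Agent.H166.TR

open MeasureTheory ProbabilityTheory Finset
open Pool.Agent.H705.TR

section

variable {Ω : Type} [MeasurableSpace Ω] {M : ℕ → ℕ} {P : Measure Ω} {X : ℕ → Ω → ℕ}

theorem meas_pt (hM : Model M P X) (c : ℕ) (A : ℕ → Prop) : MeasurableSet {ω | A (X c ω)} := by
  have h : {ω | A (X c ω)} = X c ⁻¹' {y | A y} := rfl
  rw [h]
  exact hM.meas c (MeasurableSet.of_discrete)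

theorem reach_meas (hRCH : P_RCH) (hGEN : P_GEN) (hM : Model M P X) (z : ℕ) (Q : ℕ → ℕ → Prop)
    (K n c : ℕ) : MeasurableSet {ω | Reach z Q K n c fun i => X i ω} := by
  have hprob := hM.prob
  have h := hGEN Ω P ℕ X hprob hM.meas hM.indep (range (c + 1)) ∅ (disjoint_empty_right _)
    (fun x => Reach z Q K n c x) (fun _ => True)
    (fun v w hvw => hRCH.2.1 z Q K n c v w (fun i hi => hvw i (mem_range.2 (by omega))))
    (fun _ _ _ => Iff.rfl)
  exact h.1

theorem reach_indep (hRCH : P_RCH) (hGEN : P_GEN) (hM : Model M P X) (z : ℕ) (Q : ℕ → ℕ → Prop)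
    (K n' c' c y : ℕ) (hc : c' < c) :
    P.real {ω | X c ω = y ∧ Reach z Q K n' c' fun i => X i ω} =
      P.real {ω | X c ω = y} * P.real {ω | Reach z Q K n' c' fun i => X i ω} := by
  have hprob := hM.prob
  have h := hGEN Ω P ℕ X hprob hM.meas hM.indep {c} (range c)
    (by rw [disjoint_singleton_left, mem_range]; omega)
    (fun x => x c = y) (fun x => Reach z Q K n' c' x)
    (fun v w hvw => by
      have := hvw c (mem_singleton_self c)
      simp only [this])
    (fun v w hvw => hRCH.2.1 z Q K n' c' v w (fun i hi => hvw i (mem_range.2 (by omega))))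
  exact h.2.2

open Classical in
theorem decomp (hNXT : P_NXT) (hRCH : P_RCH) (hGEN : P_GEN) (hM : Model M P X) (z L : ℕ)
    (Q : ℕ → ℕ → Prop) (K n c : ℕ) (hOk : Ok z L (K + 1) n c) :
    P.real {ω | Reach z Q (K + 1) n c fun i => X i ω} =
      P.real {ω | R z c (X c ω) ∧ Q c (X c ω)} +
      ∑ y ∈ (range (M c)).filter (fun y => ¬ R z c y), P.real {ω | X c ω = y} *
        P.real {ω | Reach z Q K (nxt n c y).1 (nxt n c y).2 fun i => X i ω} := by
  have hprob := hM.prob
  have hset : {ω | Reach z Q (K + 1) n c fun i => X i ω} =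
      {ω | R z c (X c ω) ∧ Q c (X c ω)} ∪
      ⋃ y ∈ (range (M c)).filter (fun y => ¬ R z c y),
        {ω | X c ω = y ∧ Reach z Q K (nxt n c y).1 (nxt n c y).2 fun i => X i ω} := by
    ext ω
    rw [Set.mem_union, Set.mem_iUnion₂, Set.mem_ofPred_eq, Set.mem_ofPred_eq]
    rw [Reach]
    constructor
    · rintro (h | h)
      · exact Or.inl h
      · refine Or.inr ⟨X c ω, ?_, rfl, h.2⟩
        rw [mem_filter, mem_range]
        exact ⟨hM.lt c ω, h.1⟩
    · rintro (h | ⟨y, hy, h1, h2⟩)
      · exact Or.inl h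
      · rw [mem_filter, mem_range] at hy
        right
        rw [h1]
        exact ⟨hy.2, h2⟩
  rw [hset, measureReal_union (h₁ := measure_ne_top P _) (h₂ := measure_ne_top P _)]
  · congr 1
    rw [measureReal_biUnion_finset]
    · refine sum_congr rfl (fun y hy => ?_)
      rw [mem_filter] at hy
      exact reach_indep hRCH hGEN hM z Q K _ _ c y (hNXT z L K n c y hOk hy.2).2.2.1
    · intro y _ y' _ hne
      rw [Function.onFun, Set.disjoint_left]
      intro ω h1 h2
      exact hne (h1.1.symm.trans h2.1)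
    · intro y _
      exact (meas_pt hM c (fun a => a = y)).inter (reach_meas hRCH hGEN hM z Q K _ _)
  · rw [Set.disjoint_left]
    intro ω h1 h2
    rw [Set.mem_iUnion₂] at h2
    obtain ⟨y, hy, h3, -⟩ := h2
    rw [mem_filter] at hy
    apply hy.2
    rw [← h3]
    exact h1.1
  · refine Finset.measurableSet_biUnion _ (fun y _ => ?_)
    exact (meas_pt hM c (fun a => a = y)).inter (reach_meas hRCH hGEN hM z Q K _ _)

open Classical in
theorem sum_not (hM : Model M P X) (z c : ℕ) :
    ∑ y ∈ (range (M c)).filter (fun y => ¬ R z c y), P.real {ω | X c ω = y} =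
      1 - P.real {ω | R z c (X c ω)} := by
  have hprob := hM.prob
  have h1 : P.real {ω | R z c (X c ω)}ᶜ = 1 - P.real {ω | R z c (X c ω)} := by
    rw [measureReal_compl (meas_pt hM c (fun y => R z c y))]
    rw [probReal_univ]
  rw [← h1, ← measureReal_biUnion_finset]
  · congr 1
    ext ω
    rw [Set.mem_iUnion₂, Set.mem_compl_iff, Set.mem_ofPred_eq]
    constructor
    · rintro ⟨y, hy, h3⟩
      rw [mem_filter] at hy
      rw [h3]
      exact hy.2
    · intro h
      refine ⟨X c ω, ?_, rfl⟩
      rw [mem_filter, mem_range]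
      exact ⟨hM.lt c ω, h⟩
  · intro y _ y' _ hne
    rw [Function.onFun, Set.disjoint_left]
    intro ω h1 h2
    exact hne (h1.symm.trans h2)
  · intro y _
    exact meas_pt hM c (fun a => a = y)

end

theorem T_IND (hNXT : P_NXT) (hRCH : P_RCH) (hGEN : P_GEN) : P_IND := by
  classical
  intro Ω _ M P X hM z L U Q ρ₁ ρ₂ δ hδ0 hδ1 hyp K
  have hprob := hM.prob
  induction K with
  | zero =>
    intro n c _ _
    have h0 : ∀ Q' : ℕ → ℕ → Prop, {ω | Reach z Q' 0 n c fun i => X i ω} = (∅ : Set Ω) := by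
      intro Q'
      ext ω
      rw [Set.mem_ofPred_eq, Reach]
      simp
    rw [h0, h0, measureReal_empty]
    refine ⟨MeasurableSet.empty, by simp, by simp, by simp⟩
  | succ K ih =>
    intro n c hOk hcU
    have hLc : L ≤ c := by
      have := hOk.2
      omega
    obtain ⟨a1, a2, a3⟩ := hyp c hLc hcU
    have hi : ∀ y ∈ (range (M c)).filter (fun y => ¬ R z c y),
        ρ₁ * P.real {ω | Reach z (fun _ _ => True) K (nxt n c y).1 (nxt n c y).2 fun i => X i ω} ≤
          P.real {ω | Reach z Q K (nxt n c y).1 (nxt n c y).2 fun i => X i ω} ∧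
        P.real {ω | Reach z Q K (nxt n c y).1 (nxt n c y).2 fun i => X i ω} ≤
          ρ₂ * P.real {ω | Reach z (fun _ _ => True) K (nxt n c y).1 (nxt n c y).2
            fun i => X i ω} ∧
        1 - (1 - δ) ^ K ≤
          P.real {ω | Reach z (fun _ _ => True) K (nxt n c y).1 (nxt n c y).2 fun i => X i ω} := by
      intro y hy
      rw [mem_filter] at hy
      obtain ⟨b1, -, b3, -⟩ := hNXT z L K n c y hOk hy.2
      exact (ih (nxt n c y).1 (nxt n c y).2 b1 (by omega)).2
    have hT : {ω | R z c (X c ω) ∧ (fun _ _ => True) c (X c ω)} = {ω | R z c (X c ω)} := by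
      ext ω
      simp
    have hT' : {ω | R z c (X c ω) ∧ (fun (_ _ : ℕ) => True) c (X c ω)} = {ω | R z c (X c ω)} := by
      ext ω
      simp
    rw [decomp hNXT hRCH hGEN hM z L Q K n c hOk,
      decomp hNXT hRCH hGEN hM z L (fun _ _ => True) K n c hOk, hT']
    refine ⟨reach_meas hRCH hGEN hM z Q (K + 1) n c, ?_, ?_, ?_⟩
    · rw [mul_add, mul_sum]
      refine add_le_add a1 (sum_le_sum (fun y hy => ?_))
      have h1 := (hi y hy).1
      have h2 : 0 ≤ P.real {ω | X c ω = y} := measureReal_nonneg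
      calc ρ₁ * (P.real {ω | X c ω = y} * P.real {ω | Reach z (fun _ _ => True) K (nxt n c y).1
            (nxt n c y).2 fun i => X i ω}) = P.real {ω | X c ω = y} * (ρ₁ *
            P.real {ω | Reach z (fun _ _ => True) K (nxt n c y).1 (nxt n c y).2
              fun i => X i ω}) := by ring
        _ ≤ _ := mul_le_mul_of_nonneg_left h1 h2
    · rw [mul_add, mul_sum]
      refine add_le_add a2 (sum_le_sum (fun y hy => ?_))
      have h1 := (hi y hy).2.1
      have h2 : 0 ≤ P.real {ω | X c ω = y} := measureReal_nonneg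
      calc P.real {ω | X c ω = y} * P.real {ω | Reach z Q K (nxt n c y).1
            (nxt n c y).2 fun i => X i ω} ≤ P.real {ω | X c ω = y} * (ρ₂ *
            P.real {ω | Reach z (fun _ _ => True) K (nxt n c y).1 (nxt n c y).2
              fun i => X i ω}) := mul_le_mul_of_nonneg_left h1 h2
        _ = _ := by ring
    · have h1 : (1 - P.real {ω | R z c (X c ω)}) * (1 - (1 - δ) ^ K) ≤
          ∑ y ∈ (range (M c)).filter (fun y => ¬ R z c y), P.real {ω | X c ω = y} *
            P.real {ω | Reach z (fun _ _ => True) K (nxt n c y).1 (nxt n c y).2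
              fun i => X i ω} := by
        rw [← sum_not hM z c, sum_mul]
        exact sum_le_sum (fun y hy => mul_le_mul_of_nonneg_left (hi y hy).2.2 measureReal_nonneg)
      obtain ⟨r, hr⟩ : ∃ r, r = P.real {ω | R z c (X c ω)} := ⟨_, rfl⟩
      rw [← hr] at h1 a3 ⊢
      have h2 : 0 ≤ (1 - δ) ^ K := pow_nonneg (by linarith) K
      have h3 : (1 - r) * (1 - δ) ^ K ≤ (1 - δ) * (1 - δ) ^ K :=
        mul_le_mul_of_nonneg_right (by linarith) h2
      have h4 : (1 - δ) ^ (K + 1) = (1 - δ) * (1 - δ) ^ K := by ring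
      rw [h4]
      nlinarith

end Pool.Agent.H166.TR
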