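import Pool.Agent.H705.TR.Stm

/-! # Project TR (helper705), package JMP (helper166) -/

set_option autoImplicit false

namespace Pool.Agent.H166.TR

open Pool.Agent.H705.TR

theorem b_le (m : ℕ) : b m ≤ 6 := by
  unfold b
  split_ifs <;> omega

/-- a time with prescribed residues -/
theorem exists_time (n p r s : ℕ) (hp : p.Prime) (h3 : p ≠ 3) :
    ∃ m, n ≤ m ∧ m < n + 3 * p ∧ m % 3 = r % 3 ∧ m ≡ s [MOD p] := by
  have hc : Nat.Coprime 3 p := by
    rw [Nat.coprime_primes Nat.prime_three hp]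
    exact fun h => h3 h.symm
  obtain ⟨k, hk1, hk2⟩ := Nat.chineseRemainder hc r s
  have hp1 := hp.pos
  obtain ⟨t, ht⟩ : ∃ t, t + n = k + 3 * p * n := by
    refine ⟨k + 3 * p * n - n, ?_⟩
    have : n ≤ 3 * p * n := Nat.le_mul_of_pos_left n (by omega)
    omega
  refine ⟨n + t % (3 * p), by omega, ?_, ?_, ?_⟩
  · have := Nat.mod_lt t (by omega : 0 < 3 * p)
    omega
  · have h1 : n + t % (3 * p) ≡ k + 3 * p * n [MOD 3] := by
      rw [← ht, add_comm t n]
      apply Nat.ModEq.add_left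
      exact (Nat.mod_modEq t (3 * p)).of_mul_right p
    have h2 : k + 3 * p * n ≡ k [MOD 3] := by
      have : 3 * p * n = 3 * (p * n) := by ring
      rw [this]
      exact (Nat.modEq_zero_iff_dvd.2 (dvd_mul_right 3 _)).add_left k |>.trans (by rw [add_zero])
    exact (h1.trans h2).trans hk1
  · have h1 : n + t % (3 * p) ≡ k + 3 * p * n [MOD p] := by
      rw [← ht, add_comm t n]
      apply Nat.ModEq.add_left
      exact (Nat.mod_modEq t (3 * p)).of_mul_left 3
    have h2 : k + 3 * p * n ≡ k [MOD p] := by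
      have : 3 * p * n = p * (3 * n) := by ring
      rw [this]
      exact (Nat.modEq_zero_iff_dvd.2 (dvd_mul_right p _)).add_left k |>.trans (by rw [add_zero])
    exact (h1.trans h2).trans hk2

theorem jump_exists (c y n p β : ℕ) (hc : 9 ≤ c) (hp : p.Prime)
    (hβ : β = 0 ∨ β = 2 ∨ β = 6) (hpc : p ^ 2 ≤ c + β) (hy : p ∣ y + β) :
    ∃ m, n ≤ m ∧ m < n + 3 * p ∧ p ∣ m + b m ∧ p ∣ y + b m ∧ p ^ 2 ≤ c + b m := by
  by_cases h3 : p = 3
  · subst h3
    by_cases h2 : β = 2
    · subst h2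
      obtain ⟨m, h1, h4, h5⟩ : ∃ m, n ≤ m ∧ m < n + 3 * 3 ∧ m % 3 = 1 :=
        ⟨n + (1 + 2 * (n % 3)) % 3, by omega, by omega, by omega⟩
      have hb : b m = 2 := by
        unfold b
        rw [if_pos h5]
      refine ⟨m, h1, h4, ?_, ?_, ?_⟩
      · rw [hb]
        omega
      · rw [hb]
        exact hy
      · omega
    · obtain ⟨m, h1, h4, h5⟩ : ∃ m, n ≤ m ∧ m < n + 3 * 3 ∧ m % 3 = 0 :=
        ⟨n + (2 * (n % 3)) % 3, by omega, by omega, by omega⟩
      have hb : b m = 0 := by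
        unfold b
        rw [if_neg (by omega), if_neg (by omega)]
      refine ⟨m, h1, h4, ?_, ?_, ?_⟩
      · rw [hb]
        omega
      · rw [hb]
        omega
      · omega
  · have hβ' : ∃ r, r < 3 ∧ (∀ m, m % 3 = r % 3 → b m = β) := by
      rcases hβ with h | h | h
      · refine ⟨0, by omega, fun m hm => ?_⟩
        unfold b
        rw [if_neg (by omega), if_neg (by omega), h]
      · refine ⟨1, by omega, fun m hm => ?_⟩
        unfold b
        rw [if_pos (by omega), h]
      · refine ⟨2, by omega, fun m hm => ?_⟩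
        unfold b
        rw [if_neg (by omega), if_pos (by omega), h]
    obtain ⟨r, hr, hrb⟩ := hβ'
    obtain ⟨m, h1, h2, h4, h5⟩ := exists_time n p r (p * β - β) hp h3
    have hb := hrb m h4
    refine ⟨m, h1, h2, ?_, ?_, ?_⟩
    · rw [hb]
      have h6 : m + β ≡ (p * β - β) + β [MOD p] := h5.add_right β
      have h7 : p * β - β + β = p * β := by
        have : β ≤ p * β := Nat.le_mul_of_pos_left β hp.pos
        omega
      rw [h7] at h6
      exact (Nat.modEq_zero_iff_dvd.1 (h6.trans (Nat.modEq_zero_iff_dvd.2 (dvd_mul_right p β))))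
    · rw [hb]
      exact hy
    · rw [hb]
      exact hpc

theorem T_JMP : P_JMP := by
  intro c y n p β hn hc hp hβ hpc hy
  obtain ⟨m0, h1, h2, h3, h4, h5⟩ := jump_exists c y n p β hc hp hβ hpc hy
  have hG0 : G c m0 y ≠ 1 := by
    unfold G
    rw [if_neg]
    · intro h6
      have h7 : p ∣ Nat.gcd (y + b m0) (m0 + b m0) := Nat.dvd_gcd h4 h3
      rw [h6] at h7
      exact hp.one_lt.ne' (Nat.dvd_one.1 h7)
    · intro h6
      exact h6 p hp h5 h4
  have hne : {m : ℕ | n ≤ m ∧ G c m y ≠ 1}.Nonempty := ⟨m0, h1, hG0⟩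
  have hmem : n ≤ jm n c y ∧ G c (jm n c y) y ≠ 1 := by
    unfold jm
    exact Nat.sInf_mem hne
  have hle : jm n c y ≤ m0 := by
    unfold jm
    exact Nat.sInf_le ⟨h1, hG0⟩
  obtain ⟨h6, h7⟩ := hmem
  have hPr : ¬ PrimeIn (c + b (jm n c y)) (y + b (jm n c y)) := by
    intro h8
    apply h7
    unfold G
    rw [if_pos h8]
  have hGe : G c (jm n c y) y = Nat.gcd (y + b (jm n c y)) (jm n c y + b (jm n c y)) := by
    unfold G
    rw [if_neg hPr]
  have hpos : 0 < jm n c y + b (jm n c y) := by omega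
  refine ⟨h6, by omega, ?_, ?_, ?_, ?_⟩
  · intro i hi hij
    by_contra hcon
    have : jm n c y ≤ i := by
      unfold jm
      exact Nat.sInf_le ⟨hi, hcon⟩
    omega
  · have h8 : 1 ≤ G c (jm n c y) y := by
      rw [hGe]
      exact Nat.gcd_pos_of_pos_right _ hpos
    omega
  · rw [hGe]
    refine (Nat.gcd_le_right _ hpos).trans ?_
    have := b_le (jm n c y)
    omega
  · rw [hGe]
    exact Nat.gcd_dvd_left _ _

end Pool.Agent.H166.TR
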